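import Pool.Agent.L7h45.DL.Tw
import Pool.Agent.R389.SmallMain
import Pool.Agent.R389.Simple
import Pool.Agent.R389.Metab

set_option autoImplicit false

/-!
# Twists by the representations of an abelian-by-nilpotent quotient
-/

namespace Pool.Agent.L7h45.DL

open Pool.Agent.H302R2 Pool.Agent.H302R3 Pool.Agent.H541R3.ART Pool.Agent.W446.AS
open Pool.Agent.R389 Filter Topology

variable {G : Type} [Group G] [Finite G]

/-- twisting a monomial character -/
lemma mono_twist {χ : G → ℂ} (h : Mono χ) (lam : G →* ℂˣ) : Mono (twHom lam χ) := by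
  obtain ⟨K, ψ, rfl⟩ := h
  refine ⟨K, ψ * lam.comp K.subtype, ?_⟩
  funext g
  change ind K (fun h => ((ψ h : ℂˣ) : ℂ)) g * ((lam g : ℂˣ) : ℂ) = _
  rw [← ind_mul K (fun h => ((ψ h : ℂˣ) : ℂ)) (F := fun g => ((lam g : ℂˣ) : ℂ))
    (lin_conj lam) g]
  rfl

omit [Finite G] in
lemma twHom_inv (lam : G →* ℂˣ) (f : G → ℂ) : twHom lam (twHom lam⁻¹ f) = f := by
  funext g
  change f g * (((lam⁻¹ : G →* ℂˣ) g : ℂˣ) : ℂ) * ((lam g : ℂˣ) : ℂ) = f g
  rw [MonoidHom.inv_apply, mul_assoc, ← Units.val_mul, inv_mul_cancel, Units.val_one, mul_one]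

/-- the part of a character on which `K` acts by `lam` is a sum of monomial characters if `G / K` is
abelian-by-nilpotent -/
lemma part_mono (K : Subgroup G) [K.Normal] (hQ : AN (G ⧸ K)) (lam : G →* ℂˣ) {f : G → ℂ}
    (hf : f ∈ AddSubmonoid.closure (Irr G)) : twHom lam (inv K (twHom lam⁻¹ f)) ∈ MonPA G := by
  have hle : AddSubmonoid.closure (Irr G) ≤
      (MonPA G).comap ((twHom lam).comp ((invHom K).comp (twHom lam⁻¹))) := by
    rw [AddSubmonoid.closure_le]
    intro χ hχ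
    rw [SetLike.mem_coe, AddSubmonoid.mem_comap]
    change twHom lam (inv K (twHom lam⁻¹ χ)) ∈ MonPA G
    have h1 : twHom lam⁻¹ χ ∈ Irr G := irr_twist hχ lam⁻¹
    by_cases h : inv K (twHom lam⁻¹ χ) = 0
    · rw [h, map_zero]
      exact zero_mem _
    · have h2 := mono_of_quot K hQ h1 h
      rcases irr_inv K h1 with h3 | h3
      · rw [inv_of_const K h3]
        exact AddSubmonoid.subset_closure (mono_twist h2 lam)
      · exact absurd h3.2 h
  exact hle hf

variable {E : Type} [Field E] {c : ℂ}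

/-- Deligne's conjecture for the twists by the representations on which `K` acts by a linear
character, if `G / K` is abelian-by-nilpotent -/
theorem deligne_of_quot {ζ : E} (hζ : IsPrimitiveRoot ζ (Monoid.exponent G)) {T : Twists G E c}
    (hA : T.Abelian) (τ₀ : E →+* ℂ) (K : Subgroup G) [K.Normal] (hQ : AN (G ⧸ K)) (lam : G →* Eˣ)
    {W : Type} [AddCommGroup W] [Module E W] [FiniteDimensional E W] (σ : Representation E G W)
    (hσ : ∀ k ∈ K, ∀ w, σ k w = ((lam k : Eˣ) : E) • w) : Deligne T.L T.P c σ.character := by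
  set lam₀ : G →* ℂˣ := (Units.map τ₀.toMonoidHom).comp lam with hlam₀
  have h1 := part_mono K hQ lam₀ (base_change τ₀ σ)
  have h2 : inv K (twHom lam₀⁻¹ (fun g => τ₀ (σ.character g)))
      = twHom lam₀⁻¹ (fun g => τ₀ (σ.character g)) := by
    apply inv_of_const
    intro g k hk
    change τ₀ (σ.character (g * k)) * (((lam₀⁻¹ : G →* ℂˣ) (g * k) : ℂˣ) : ℂ)
      = τ₀ (σ.character g) * (((lam₀⁻¹ : G →* ℂˣ) g : ℂˣ) : ℂ)
    have h3 : σ.character (g * k) = σ.character g * ((lam k : Eˣ) : E) := by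
      change LinearMap.trace E W (σ (g * k)) = LinearMap.trace E W (σ g) * _
      have h4 : σ (g * k) = ((lam k : Eˣ) : E) • σ g := by
        rw [map_mul]
        refine LinearMap.ext fun w => ?_
        rw [Module.End.mul_apply, hσ k hk w, map_smul, LinearMap.smul_apply]
      rw [h4, map_smul, smul_eq_mul, mul_comm]
    rw [h3, map_mul, map_mul, Units.val_mul]
    have h5 : τ₀ ((lam k : Eˣ) : E) = ((lam₀ k : ℂˣ) : ℂ) := rfl
    have h6 : ((lam₀ k : ℂˣ) : ℂ) * (((lam₀⁻¹ : G →* ℂˣ) k : ℂˣ) : ℂ) = 1 := by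
      rw [MonoidHom.inv_apply, ← Units.val_mul, mul_inv_cancel, Units.val_one]
    rw [h5]
    linear_combination (τ₀ (σ.character g) * (((lam₀⁻¹ : G →* ℂˣ) g : ℂˣ) : ℂ)) * h6
  rw [h2, twHom_inv] at h1
  obtain ⟨f, e, h3, h4⟩ := monA_del hζ T.mero T.per hA τ₀ h1
  have h5 : f = σ.character := by
    funext g
    exact τ₀.injective (h3 g)
  rw [h5] at h4
  exact h4.deligne

/-- `G / ⁅N, N⁆` is abelian-by-nilpotent if `G / N` is nilpotent -/
lemma an_comm_quot {G : Type} [Group G] (N : Subgroup G) [N.Normal]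
    (h : Group.IsNilpotent (G ⧸ N)) : AN (G ⧸ ⁅N, N⁆) := by
  let π : G →* G ⧸ ⁅N, N⁆ := QuotientGroup.mk' ⁅N, N⁆
  have hπ : Function.Surjective π := QuotientGroup.mk'_surjective _
  have hA : (N.map π).Normal := Subgroup.Normal.map inferInstance π hπ
  refine ⟨N.map π, hA, ?_, ?_⟩
  · rintro ⟨a, x, hx, rfl⟩ ⟨b, y, hy, rfl⟩
    apply Subtype.ext
    change π x * π y = π y * π x
    rw [← map_mul, ← map_mul]
    change (QuotientGroup.mk (x * y) : G ⧸ ⁅N, N⁆) = QuotientGroup.mk (y * x)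
    rw [QuotientGroup.eq]
    have h1 := Subgroup.commutator_mem_commutator (inv_mem hy) (inv_mem hx)
    rw [commutatorElement_def] at h1
    have h2 : (x * y)⁻¹ * (y * x) = y⁻¹ * x⁻¹ * y⁻¹⁻¹ * x⁻¹⁻¹ := by group
    rw [h2]
    exact h1
  · let φ : G ⧸ N →* (G ⧸ ⁅N, N⁆) ⧸ N.map π :=
      QuotientGroup.lift N ((QuotientGroup.mk' (N.map π)).comp π) (by
        intro x hx
        rw [MonoidHom.mem_ker, MonoidHom.comp_apply, QuotientGroup.mk'_apply,
          QuotientGroup.eq_one_iff]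
        exact Subgroup.mem_map_of_mem π hx)
    refine Group.nilpotent_of_surjective φ ?_
    intro q
    obtain ⟨y, rfl⟩ := QuotientGroup.mk_surjective q
    obtain ⟨x, rfl⟩ := hπ y
    exact ⟨QuotientGroup.mk x, rfl⟩

end Pool.Agent.L7h45.DL
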