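import Mathlib
import Pool.Agent.R389.Defs

set_option autoImplicit false

/-!
# The induced characters are characters of representations over the coefficient field
-/

namespace Pool.Agent.L7h45.DL

open Pool.Agent.R389

variable {G : Type} [Group G] [Finite G] {E : Type} [Field E]

/-- the functions `f` on `G` with `f (u x) = ψ u * f x` -/
def indSpace (U : Subgroup G) (ψ : U →* Eˣ) : Submodule E (G → E) where
  carrier := {f | ∀ (u : U) (x : G), f (u * x) = ((ψ u : Eˣ) : E) * f x}
  add_mem' := by
    intro a b ha hb u x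
    rw [Pi.add_apply, Pi.add_apply, ha, hb, mul_add]
  zero_mem' := by
    intro u x
    rw [Pi.zero_apply, Pi.zero_apply, mul_zero]
  smul_mem' := by
    intro c a ha u x
    rw [Pi.smul_apply, Pi.smul_apply, ha, smul_eq_mul, smul_eq_mul]
    ring

theorem exists_rep [CharZero E] (U : Subgroup G) (ψ : U →* Eˣ) :
    ∃ (V : Type) (_ : AddCommGroup V) (_ : Module E V) (_ : FiniteDimensional E V)
      (ρ : Representation E G V), ρ.character = ind U (fun u => ((ψ u : Eˣ) : E)) := by
  classical
  have : Fintype G := Fintype.ofFinite G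
  have : Fintype U := Fintype.ofFinite U
  have hcard : (Nat.card U : E) ≠ 0 := by exact_mod_cast Nat.card_pos.ne'
  let R : G → ((G → E) →ₗ[E] (G → E)) := fun g => LinearMap.funLeft E E (fun x => x * g)
  have hR : ∀ g f x, R g f x = f (x * g) := fun g f x => rfl
  have hst : ∀ g : G, ∀ v ∈ indSpace U ψ, R g v ∈ indSpace U ψ := by
    intro g v hv u x
    rw [hR, hR, mul_assoc]
    exact hv u (x * g)
  let σ : Representation E G (indSpace U ψ) :=
    { toFun := fun g => (R g).restrict (hst g)
      map_one' := by
        ext w x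
        simp [LinearMap.restrict_apply, hR]
      map_mul' := by
        intro a b
        ext w x
        simp [LinearMap.restrict_apply, hR, mul_assoc] }
  refine ⟨indSpace U ψ, inferInstance, inferInstance, inferInstance, σ, ?_⟩
  funext g
  -- the projection
  let e : (G → E) →ₗ[E] (G → E) :=
    { toFun := fun f x => (Nat.card U : E)⁻¹ * ∑ u : U, (((ψ u)⁻¹ : Eˣ) : E) * f (u * x)
      map_add' := by
        intro a b
        funext x
        simp only [Pi.add_apply, mul_add, Finset.sum_add_distrib]
      map_smul' := by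
        intro c a
        funext x
        simp only [Pi.smul_apply, smul_eq_mul, RingHom.id_apply, Finset.mul_sum]
        refine Finset.sum_congr rfl fun u _ => ?_
        ring }
  have he : ∀ f x, e f x = (Nat.card U : E)⁻¹ * ∑ u : U, (((ψ u)⁻¹ : Eˣ) : E) * f (u * x) :=
    fun f x => rfl
  have heW : ∀ v, e v ∈ indSpace U ψ := by
    intro v u x
    rw [he, he]
    rw [← Equiv.sum_comp (Equiv.mulRight u) (fun y : U => (((ψ y)⁻¹ : Eˣ) : E) * v (y * x))]
    rw [mul_left_comm ((ψ u : Eˣ) : E)]
    congr 1
    rw [Finset.mul_sum]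
    refine Finset.sum_congr rfl fun y _ => ?_
    simp only [Equiv.coe_mulRight, Subgroup.coe_mul, map_mul, mul_inv, Units.val_mul]
    rw [mul_assoc (y : G) (u : G) x, ← mul_assoc ((ψ u : Eˣ) : E),
      mul_comm (((ψ y)⁻¹ : Eˣ) : E) (((ψ u)⁻¹ : Eˣ) : E), ← mul_assoc ((ψ u : Eˣ) : E),
      Units.mul_inv, one_mul]
  have heid : ∀ v ∈ indSpace U ψ, e v = v := by
    intro v hv
    funext x
    rw [he]
    have h1 : ∀ u : U, (((ψ u)⁻¹ : Eˣ) : E) * v (u * x) = v x := by
      intro u
      rw [hv u x, ← mul_assoc, Units.inv_mul, one_mul]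
    rw [Finset.sum_congr rfl (fun u _ => h1 u), Finset.sum_const, Finset.card_univ,
      ← Nat.card_eq_fintype_card, nsmul_eq_mul, ← mul_assoc, inv_mul_cancel₀ hcard, one_mul]
  let F : (G → E) →ₗ[E] (G → E) := (R g).comp e
  have hF : ∀ v, F v ∈ indSpace U ψ := fun v => hst g _ (heW v)
  have h1 := LinearMap.trace_restrict_eq_of_forall_mem (indSpace U ψ) F hF
  have h2 : F.restrict (fun x _ => hF x) = σ g := by
    refine LinearMap.ext fun w => Subtype.ext ?_
    change R g (e w) = R g w
    rw [heid _ w.2]
  have h3 : LinearMap.trace E (G → E) F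
      = (Nat.card U : E)⁻¹ * ∑ x : G, ext U (fun u => ((ψ u : Eˣ) : E)) (x * g * x⁻¹) := by
    rw [LinearMap.trace_eq_matrix_trace E (Pi.basisFun E G), Matrix.trace, Finset.mul_sum]
    refine Finset.sum_congr rfl fun x _ => ?_
    rw [Matrix.diag_apply, LinearMap.toMatrix_apply, Pi.basisFun_repr, Pi.basisFun_apply]
    change R g (e (Pi.single x 1)) x = _
    rw [hR, he]
    congr 1
    unfold ext
    by_cases hx : x * g * x⁻¹ ∈ U
    · rw [dif_pos hx]
      have h4 : ∀ u : U, (Pi.single x (1 : E) : G → E) (u * (x * g))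
          = if u = (⟨x * g * x⁻¹, hx⟩ : U)⁻¹ then 1 else 0 := by
        intro u
        rw [Pi.single_apply]
        refine if_congr ?_ rfl rfl
        rw [Subtype.ext_iff, Subgroup.coe_inv]
        constructor
        · intro h
          rw [eq_inv_iff_mul_eq_one, ← mul_assoc]
          rw [h, mul_inv_cancel]
        · intro h
          rw [h]
          group
      simp only [h4, mul_ite, mul_one, mul_zero, Finset.sum_ite_eq', Finset.mem_univ, if_true,
        map_inv, inv_inv]
    · rw [dif_neg hx]
      refine Finset.sum_eq_zero fun u _ => ?_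
      have h5 : (u : G) * (x * g) ≠ x := by
        intro h
        apply hx
        have h6 : x * g * x⁻¹ = (u : G)⁻¹ := by
          rw [eq_inv_iff_mul_eq_one]
          have h7 : x * g * x⁻¹ * u = x * g * x⁻¹ * (u * (x * g) * (x * g)⁻¹) := by group
          rw [h7, h]
          group
        rw [h6]
        exact inv_mem u.2
      rw [Pi.single_apply, if_neg h5, mul_zero]
  have h4 : σ.character g = LinearMap.trace E (G → E) F := by
    rw [← h1, h2]
    rfl
  rw [h4, h3]
  unfold ind
  rw [finsum_eq_sum_of_fintype,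
    ← Equiv.sum_comp (Equiv.inv G) (fun x => ext U (fun u => ((ψ u : Eˣ) : E)) (x⁻¹ * g * x))]
  simp only [Equiv.inv_apply, inv_inv]

end Pool.Agent.L7h45.DL
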