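import Pool.Agent.L7h45.DL.Rep
import Pool.Agent.R389.Defs

set_option autoImplicit false

/-!
# The Artin twists of a motive: L-functions, periods, Deligne's conjecture

`Pool.Agent.H541R3.ART.Irr G` is the set of the irreducible complex characters of `G`,
`Pool.Agent.R389.ind U f` is the function on `G` induced from the function `f` on the subgroup `U`,
`Pool.Agent.R389.IsDecomp f m` says that `f` is the sum of `m χ` copies of `χ` over the irreducible
characters `χ` of `G`, and `Pool.Agent.R389.Deligne L P c f` is Deligne's conjecture at the critical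
point `c` for the twist by the character `f` with values in the coefficient field.
-/

namespace Pool.Agent.L7h45.DL

open Pool.Agent.H541R3.ART Pool.Agent.R389 Filter Topology

/-- The L-functions and the periods of the Artin twists `M ⊗ ρ` of a motive `M` over a number field
`K`, where `ρ` runs through the representations of `G = Gal(F/K)` over the coefficient field `E`,
at a critical point `c`.

`L τ χ` and `P τ χ` are the L-function and Deligne's period of `M ⊗ ρ` at the embedding `τ` of `E`,
where `ρ` is the irreducible representation over `E` with `τ ∘ (character of ρ) = χ`. For a sum of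
representations L-functions and periods are multiplied; this is built into
`Pool.Agent.R389.Deligne`. -/
structure Twists (G : Type) [Group G] (E : Type) [Field E] (c : ℂ) where
  /-- the L-functions -/
  L : (E →+* ℂ) → (G → ℂ) → ℂ → ℂ
  /-- the periods -/
  P : (E →+* ℂ) → (G → ℂ) → ℂ
  /-- the L-functions are meromorphic at `c` and not identically zero -/
  mero : ∀ τ, ∀ χ ∈ Irr G, MeromorphicAt (L τ χ) c ∧ meromorphicOrderAt (L τ χ) c ≠ ⊤
  /-- the periods are not zero -/
  per : ∀ τ, ∀ χ ∈ Irr G, P τ χ ≠ 0

variable {G : Type} [Group G] {E : Type} [Field E] {c : ℂ}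

/-- The order of vanishing at `c` of the L-function of `M ⊗ f` at the embedding `τ`, where `f` is
the sum of `m χ` copies of `χ`. -/
noncomputable def Twists.order (T : Twists G E c) (τ : E →+* ℂ) (m : (G → ℂ) → ℕ) : WithTop ℤ :=
  meromorphicOrderAt (fun s => ∏ᶠ χ ∈ Irr G, T.L τ χ s ^ m χ) c

/-- The order of vanishing at `c` of the product of the `L(M ⊗ χ, s) ^ m χ` over the irreducible
characters `χ` of `G` on which the normal subgroup `K` acts by the scalars `lam k`. For `lam = 1`
and `m χ = χ 1` this is the order of vanishing of the L-function of `M` over the field `F^K`. -/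
noncomputable def Twists.orderOn (T : Twists G E c) (τ : E →+* ℂ) (K : Subgroup G) (lam : G → ℂ)
    (m : (G → ℂ) → ℕ) : WithTop ℤ :=
  meromorphicOrderAt (fun s => ∏ᶠ χ ∈ {χ ∈ Irr G | ∀ k ∈ K, χ k = χ 1 * lam k},
    T.L τ χ s ^ m χ) c

/-- Deligne's conjecture for `M ⊗ Ind ψ`, i.e. for the twist of `M` by the character `ψ` of
degree one over the intermediate field `F^U`. -/
def Twists.AbelianAt (T : Twists G E c) (U : Subgroup G) (ψ : U →* Eˣ) : Prop :=
  Deligne T.L T.P c (ind U (fun u => ((ψ u : Eˣ) : E)))

/-- Deligne's conjecture for the twists of `M` by the characters of degree one over all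
intermediate fields. -/
def Twists.Abelian (T : Twists G E c) : Prop :=
  ∀ (U : Subgroup G) (ψ : U →* Eˣ), T.AbelianAt U ψ

/-- Deligne's conjecture for the twists `M ⊗ ρ` by all representations of `G` over `E`. -/
def Twists.All (T : Twists G E c) : Prop :=
  ∀ (V : Type) [AddCommGroup V] [Module E V] [FiniteDimensional E V] (ρ : Representation E G V),
    Deligne T.L T.P c ρ.character

/-- The motive `M` has rational coefficients: the L-function of the twist by `χ` does not depend on
the embedding. -/
def Twists.Rational (T : Twists G E c) : Prop := ∀ τ τ' : E →+* ℂ, T.L τ = T.L τ'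

theorem Twists.All.abelianAt [Finite G] [CharZero E] {T : Twists G E c} (h : T.All)
    (U : Subgroup G) (ψ : U →* Eˣ) : T.AbelianAt U ψ := by
  obtain ⟨V, i1, i2, i3, ρ, hρ⟩ := exists_rep U ψ
  have h1 := h V ρ
  rw [hρ] at h1
  exact h1

theorem Twists.All.abelian [Finite G] [CharZero E] {T : Twists G E c} (h : T.All) : T.Abelian :=
  fun U ψ => h.abelianAt U ψ

end Pool.Agent.L7h45.DL
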